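import Pool.Agent.VTP.StmtsW

/-!
# Squad VTP, row WBA: basic facts on the data of a word
-/

set_option autoImplicit false

namespace Pool.Agent.VTP.H45

open Finset Pool.Agent.ZOL Pool.Agent.VTP

theorem find_of_filter (w : Word) (p : Letter → Bool) (l : Letter) (t : Word)
    (h : w.filter p = l :: t) : w.find? p = some l := by
  induction w with
  | nil => simp at h
  | cons x w ih =>
    by_cases hx : p x = true
    · rw [List.filter_cons_of_pos hx] at h
      injection h with h1 h2
      subst h1
      exact List.find?_cons_of_pos hx
    · rw [List.filter_cons_of_neg hx] at h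
      rw [List.find?_cons_of_neg hx]
      exact ih h

theorem fstL_eq (w : Word) (d : ℕ) (l : Letter) (t : Word) (h : sub {d} w = l :: t) :
    fstL w d = l := by
  unfold fstL
  have h1 : w.find? (fun l => decide (l.1 = d)) = some l := by
    apply find_of_filter w _ l t
    rw [← h]
    unfold sub
    apply List.filter_congr
    intro x _
    simp
  rw [h1]; rfl

/-- Row WBA. -/
theorem wba : WbaStmt := by
  refine ⟨?_, ?_, ?_⟩
  · intro w c d h
    unfold il at h ⊢
    rw [Finset.pair_comm d c]
    exact h.symm
  · intro w hw c h
    have h2 : (sub {c, c} w).length = 4 := by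
      unfold il at h
      have h3 : ((sub {c, c} w).map Prod.fst).length = 4 := by
        rcases h with h | h <;> rw [h] <;> rfl
      simpa using h3
    have h4 := length_sub hw ({c, c} : Finset ℕ)
    have h5 : (({c, c} : Finset ℕ) ∩ labels w).card ≤ 1 := by
      refine le_trans (Finset.card_le_card Finset.inter_subset_left) ?_
      simp
    omega
  · intro w hw d hd
    obtain ⟨l, hl, hs⟩ := gauss_label hw hd
    have hf := fstL_eq w d l _ hs
    rw [hf]
    refine ⟨hl, hs, ?_, ?_, ?_⟩
    · unfold sg; rw [hf]; unfold eps
      rcases l.2.1 with _ | _ <;> simp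
    · unfold sn sg; rw [hf]; unfold sgn eps
      rcases l with ⟨a, s, o⟩
      cases s <;> cases o <;> simp
    · unfold sn sg; rw [hf]; unfold sgn eps
      rcases l with ⟨a, s, o⟩
      cases s <;> cases o <;> simp

end Pool.Agent.VTP.H45
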